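import Mathlib

set_option autoImplicit false

namespace Pool.Agent.Results.MP_79d058_nt.ThreeRows

/-- An `(m,n)`-square table. -/
def Table (m n : ℕ) : Prop :=
  ∃ (a : Fin m → ℤ) (b : Fin n → ℤ), Function.Injective a ∧ Function.Injective b ∧
    ∀ i j, ∃ z : ℤ, a i + b j = z ^ 2

/-- iterated doubling on `y² = x(x+2)(x+6)`, in projective form -/
def T : ℕ → ℤ × ℤ × ℤ × ℤ
  | 0 => (1, 3, 5, 2)
  | k + 1 => ((T k).1 ^ 4 - 12 * (T k).2.2.2 ^ 4, (T k).2.1 ^ 4 + 8 * (T k).2.2.2 ^ 4,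
      (T k).2.2.1 ^ 4 - 24 * (T k).2.2.2 ^ 4,
      2 * (T k).1 * (T k).2.1 * (T k).2.2.1 * (T k).2.2.2)

def U (k : ℕ) : ℤ := (T k).1
def V (k : ℕ) : ℤ := (T k).2.1
def W (k : ℕ) : ℤ := (T k).2.2.1
def D (k : ℕ) : ℤ := (T k).2.2.2

theorem U_succ (k : ℕ) : U (k + 1) = U k ^ 4 - 12 * D k ^ 4 := rfl
theorem V_succ (k : ℕ) : V (k + 1) = V k ^ 4 + 8 * D k ^ 4 := rfl
theorem W_succ (k : ℕ) : W (k + 1) = W k ^ 4 - 24 * D k ^ 4 := rfl
theorem D_succ (k : ℕ) : D (k + 1) = 2 * U k * V k * W k * D k := rfl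

theorem inv (k : ℕ) : Odd (U k) ∧ Odd (V k) ∧ Odd (W k) ∧ D k ≠ 0 ∧
    V k ^ 2 = U k ^ 2 + 2 * D k ^ 2 ∧ W k ^ 2 = U k ^ 2 + 6 * D k ^ 2 := by
  induction k with
  | zero =>
    refine ⟨by decide, by decide, by decide, by decide, by decide, by decide⟩
  | succ k ih =>
    obtain ⟨hU, hV, hW, hD, h1, h2⟩ := ih
    refine ⟨?_, ?_, ?_, ?_, ?_, ?_⟩
    · rw [U_succ]
      exact (hU.pow).sub_even ⟨6 * D k ^ 4, by ring⟩
    · rw [V_succ]
      exact (hV.pow).add_even ⟨4 * D k ^ 4, by ring⟩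
    · rw [W_succ]
      exact (hW.pow).sub_even ⟨12 * D k ^ 4, by ring⟩
    · rw [D_succ]
      have a1 : U k ≠ 0 := by rintro h; rw [h] at hU; exact absurd hU (by decide)
      have a2 : V k ≠ 0 := by rintro h; rw [h] at hV; exact absurd hV (by decide)
      have a3 : W k ≠ 0 := by rintro h; rw [h] at hW; exact absurd hW (by decide)
      positivity
    · rw [V_succ, U_succ, D_succ]
      have e1 : V k ^ 4 = (U k ^ 2 + 2 * D k ^ 2) ^ 2 := by rw [← h1]; ring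
      have e2 : (2 * U k * V k * W k * D k) ^ 2
          = 4 * U k ^ 2 * (U k ^ 2 + 2 * D k ^ 2) * (U k ^ 2 + 6 * D k ^ 2) * D k ^ 2 := by
        rw [← h1, ← h2]; ring
      rw [e1, e2]
      ring
    · rw [W_succ, U_succ, D_succ]
      have e1 : W k ^ 4 = (U k ^ 2 + 6 * D k ^ 2) ^ 2 := by rw [← h2]; ring
      have e2 : (2 * U k * V k * W k * D k) ^ 2
          = 4 * U k ^ 2 * (U k ^ 2 + 2 * D k ^ 2) * (U k ^ 2 + 6 * D k ^ 2) * D k ^ 2 := by
        rw [← h1, ← h2]; ring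
      rw [e1, e2]
      ring

theorem D_lt (j d : ℕ) : ∃ m : ℤ, D (j + d + 1) = D j * (2 * m) := by
  induction d with
  | zero => exact ⟨U j * V j * W j, by rw [Nat.add_zero, D_succ]; ring⟩
  | succ d ih =>
    obtain ⟨m, hm⟩ := ih
    refine ⟨2 * U (j + d + 1) * V (j + d + 1) * W (j + d + 1) * m, ?_⟩
    rw [show j + (d + 1) + 1 = (j + d + 1) + 1 by ring, D_succ, hm]
    ring

theorem D_dvd (j n : ℕ) (h : j ≤ n) : D j ∣ D n := by
  obtain rfl | h := h.eq_or_lt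
  · exact dvd_rfl
  · obtain ⟨d, rfl⟩ := Nat.exists_eq_add_of_lt h
    obtain ⟨m, hm⟩ := D_lt j d
    exact ⟨2 * m, hm⟩

theorem ne_of_lt (n i j : ℕ) (h : i < j) (hj : j ≤ n) (x y : ℤ) (hx : D n = D i * x)
    (hy : D n = D j * y) : (U i * x) ^ 2 ≠ (U j * y) ^ 2 := by
  intro he
  obtain ⟨d, rfl⟩ := Nat.exists_eq_add_of_lt h
  obtain ⟨m, hm⟩ := D_lt i d
  have hDi := (inv i).2.2.2.1
  have hDn := (inv n).2.2.2.1
  have hxy : x = 2 * m * y := by
    have : D i * x = D i * (2 * m * y) := by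
      rw [← hx, hy, hm]; ring
    exact mul_left_cancel₀ hDi this
  have hy0 : y ≠ 0 := by
    rintro rfl
    rw [mul_zero] at hy
    exact hDn hy
  have hodd := (inv (i + d + 1)).1
  rcases sq_eq_sq_iff_eq_or_eq_neg.mp he with h1 | h1
  · have : U i * (2 * m) = U (i + d + 1) := by
      apply mul_right_cancel₀ hy0
      rw [← h1, hxy]; ring
    rw [← this] at hodd
    exact (Int.not_even_iff_odd.mpr hodd) ⟨U i * m, by ring⟩
  · have : - (U i * (2 * m)) = U (i + d + 1) := by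
      apply mul_right_cancel₀ hy0
      rw [hxy] at h1
      linarith
    rw [← this] at hodd
    exact (Int.not_even_iff_odd.mpr hodd) ⟨-(U i * m), by ring⟩

theorem three (n : ℕ) : Table 3 n := by
  have hF : ∀ j : Fin n, ∃ x : ℤ, D n = D j * x := fun j => D_dvd j n j.2.le
  choose F hF using hF
  have hDn := (inv n).2.2.2.1
  have hpos : 0 < D n ^ 2 := by positivity
  refine ⟨![0, 2 * D n ^ 2, 6 * D n ^ 2], fun j => (U j * F j) ^ 2, ?_, ?_, ?_⟩
  · intro i j h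
    fin_cases i <;> fin_cases j <;> simp at h ⊢ <;> omega
  · intro i j h
    by_contra hne
    have hne' : (i : ℕ) ≠ j := fun h' => hne (Fin.ext h')
    rcases lt_or_gt_of_ne hne' with h1 | h1
    · exact ne_of_lt n i j h1 j.2.le _ _ (hF i) (hF j) h
    · exact ne_of_lt n j i h1 i.2.le _ _ (hF j) (hF i) h.symm
  · intro i j
    have h1 := (inv j).2.2.2.2.1
    have h2 := (inv j).2.2.2.2.2
    fin_cases i
    · exact ⟨U j * F j, by simp⟩
    · refine ⟨V j * F j, ?_⟩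
      show 2 * D n ^ 2 + (U j * F j) ^ 2 = _
      rw [mul_pow, mul_pow, h1, hF j]; ring
    · refine ⟨W j * F j, ?_⟩
      show 6 * D n ^ 2 + (U j * F j) ^ 2 = _
      rw [mul_pow, mul_pow, h2, hF j]; ring

/-- `(3,n)`- and `(n,3)`-square tables exist for every `n`. -/
theorem result : ∀ n : ℕ, Table 3 n ∧ Table n 3 := by
  intro n
  refine ⟨three n, ?_⟩
  obtain ⟨a, b, ha, hb, h⟩ := three n
  exact ⟨b, a, hb, ha, fun i j => by rw [add_comm]; exact h j i⟩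

end Pool.Agent.Results.MP_79d058_nt.ThreeRows
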